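import Pool.Agent.helper34.AC.Spec

/-!
# FM2 (project ac:, MP_e0bd72_co)
-/

set_option autoImplicit false

namespace Pool.Agent.helper34.AC

theorem FM2_mem_st {V : Type} (G : SimpleGraph V) (X R S : Finset V) :
    S ∈ st G X R ↔ S ⊆ R ∧ ∀ x ∈ S, (∀ y ∈ S, ¬ G.Adj x y) ∧ ∀ y ∈ X, ¬ G.Adj x y := by
  unfold st
  simp only [Finset.mem_filter, Finset.mem_powerset]

theorem FM2_Mk_nonneg {V : Type} [DecidableEq V] (G : SimpleGraph V) (X R : Finset V) (k : ℕ) :
    0 ≤ Mk G X R k := by
  unfold Mk N
  exact Finset.sum_nonneg fun S _ => by positivity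

open Classical in
theorem FM2_id {V : Type} [DecidableEq V] (G : SimpleGraph V) (X R : Finset V) (k : ℕ) :
    Mk G X R (k + 1) =
      ∑ x ∈ R.filter (fun x => ∀ y ∈ X, ¬ G.Adj x y), Mk G (insert x X) (R.erase x) k := by
  have h1 : Mk G X R (k + 1) = ∑ S ∈ st G X R, ∑ x ∈ S,
      (((S.erase x).card.descFactorial k : ℕ) : ℝ) * N G (R \ S) := by
    unfold Mk
    refine Finset.sum_congr rfl ?_
    intro S _
    have h2 : ∀ x ∈ S, (((S.erase x).card.descFactorial k : ℕ) : ℝ) * N G (R \ S) =
        (((S.card - 1).descFactorial k : ℕ) : ℝ) * N G (R \ S) := by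
      intro x hx
      rw [Finset.card_erase_of_mem hx]
    rw [Finset.sum_congr rfl h2, Finset.sum_const, nsmul_eq_mul, ← mul_assoc]
    congr 1
    rcases Nat.eq_zero_or_pos S.card with h0 | h0
    · rw [h0]; simp
    · obtain ⟨n, hn⟩ := Nat.exists_eq_succ_of_ne_zero h0.ne'
      rw [hn, Nat.succ_eq_add_one, Nat.succ_descFactorial_succ, Nat.add_sub_cancel]
      push_cast
      ring
  rw [h1, Finset.sum_comm' (t' := R.filter (fun x => ∀ y ∈ X, ¬ G.Adj x y))
    (s' := fun x => (st G X R).filter (fun S => x ∈ S))]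
  · refine Finset.sum_congr rfl ?_
    intro x hx
    rw [Finset.mem_filter] at hx
    obtain ⟨hxR, hxX⟩ := hx
    unfold Mk
    refine Finset.sum_bij' (fun S _ => S.erase x) (fun S _ => insert x S) ?_ ?_ ?_ ?_ ?_
    · intro S hS
      rw [Finset.mem_filter, FM2_mem_st] at hS
      obtain ⟨⟨hSR, hS2⟩, hxS⟩ := hS
      rw [FM2_mem_st]
      refine ⟨Finset.erase_subset_erase x hSR, ?_⟩
      intro a ha
      have haS := Finset.mem_of_mem_erase ha
      refine ⟨fun b hb => (hS2 a haS).1 b (Finset.mem_of_mem_erase hb), ?_⟩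
      intro y hy
      rcases Finset.mem_insert.mp hy with rfl | hy
      · exact (hS2 a haS).1 y hxS
      · exact (hS2 a haS).2 y hy
    · intro S hS
      rw [FM2_mem_st] at hS
      obtain ⟨hSR, hS2⟩ := hS
      rw [Finset.mem_filter, FM2_mem_st]
      refine ⟨⟨?_, ?_⟩, Finset.mem_insert_self x S⟩
      · intro a ha
        rcases Finset.mem_insert.mp ha with rfl | ha
        · exact hxR
        · exact Finset.mem_of_mem_erase (hSR ha)
      · intro a ha
        rcases Finset.mem_insert.mp ha with rfl | ha'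
        · refine ⟨?_, hxX⟩
          intro b hb
          rcases Finset.mem_insert.mp hb with rfl | hb'
          · exact G.irrefl
          · intro hadj
            exact (hS2 b hb').2 a (Finset.mem_insert_self a X) hadj.symm
        · refine ⟨?_, fun y hy => (hS2 a ha').2 y (Finset.mem_insert_of_mem hy)⟩
          intro b hb
          rcases Finset.mem_insert.mp hb with rfl | hb'
          · exact (hS2 a ha').2 b (Finset.mem_insert_self b X)
          · exact (hS2 a ha').1 b hb'
    · intro S hS
      rw [Finset.mem_filter] at hS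
      exact Finset.insert_erase hS.2
    · intro S hS
      rw [FM2_mem_st] at hS
      refine Finset.erase_insert ?_
      intro hxS
      exact Finset.notMem_erase x R (hS.1 hxS)
    · intro S hS
      rw [Finset.mem_filter] at hS
      have h3 : R \ S = R.erase x \ S.erase x := by
        ext a
        simp only [Finset.mem_sdiff, Finset.mem_erase]
        constructor
        · rintro ⟨haR, haS⟩
          refine ⟨⟨?_, haR⟩, fun h => haS h.2⟩
          rintro rfl
          exact haS hS.2
        · rintro ⟨⟨hax, haR⟩, haS⟩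
          exact ⟨haR, fun h => haS ⟨hax, h⟩⟩
      rw [h3]
  · intro S x
    rw [Finset.mem_filter, Finset.mem_filter]
    constructor
    · rintro ⟨hS, hx⟩
      have hS' := (FM2_mem_st G X R S).mp hS
      exact ⟨⟨hS, hx⟩, hS'.1 hx, (hS'.2 x hx).2⟩
    · rintro ⟨⟨hS, hx⟩, -⟩
      exact ⟨hS, hx⟩

theorem FM2 (hFM1 : FM1_stmt) : FM2_stmt := by
  classical
  intro V _ G X R w k hw hOm
  induction k generalizing X R with
  | zero => exact hFM1 V G X R w hw hOm
  | succ k ih =>
    rw [FM2_id G X R (k + 1), FM2_id G X R k, Finset.mul_sum]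
    refine Finset.sum_le_sum ?_
    intro x hx
    rw [Finset.mem_filter] at hx
    have hOm' : Om G (R.erase x) w := fun U hU => hOm U (hU.trans (Finset.erase_subset x R))
    refine (ih (insert x X) (R.erase x) hOm').trans ?_
    refine mul_le_mul_of_nonneg_right ?_ (FM2_Mk_nonneg G _ _ k)
    exact hw (Finset.card_le_card (Finset.erase_subset x R))

end Pool.Agent.helper34.AC
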